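import Pool.Agent.Q109.RedBw.Main

set_option autoImplicit false

namespace Pool.Agent.Results.MP_d92bf9_co.AboveBandwidth

open Q109.RedBw

/-- (1) For every `k` there is a continuous, subgraph-monotone, union-closed parameter strictly
above bandwidth that agrees with bandwidth on all graphs of bandwidth at most `k`, and whose reduced
version agrees with reduced bandwidth up to `k`. (2) For every class of finite graphs: some
continuous parameter strictly above bandwidth has bounded reduced value on the class if and only if
the class has bounded reduced bandwidth. -/
theorem result :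
    (∀ k : ℕ, ∃ f : Param, f.Continuous ∧ f.Monotone ∧ f.UnionClosed ∧
      bandwidth.StrictlyBelow f ∧
      (∀ (V : Type) (G : SimpleGraph V), Finite V → bandwidth.val V G ≤ k →
        f.val V G = bandwidth.val V G) ∧
      (∀ (V : Type) (G : SimpleGraph V), Finite V → ∀ j ≤ k,
        (ReducedLE f V G j ↔ ReducedLE bandwidth V G j))) ∧
    (∀ C : (V : Type) → SimpleGraph V → Prop, (∀ V G, C V G → Finite V) →
      ((∃ f : Param, f.Continuous ∧ bandwidth.StrictlyBelow f ∧ BoundedReduced f C) ↔
        BoundedReduced bandwidth C)) :=
  main

end Pool.Agent.Results.MP_d92bf9_co.AboveBandwidth
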